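import Pool.Agent.Helper62.VX.Stm
import Pool.Agent.Helper15.CX.Loc

/-!
# The value at a node of arbitrary thickness
-/

set_option autoImplicit false

namespace Pool.Agent.Helper15.VX

open Polynomial
open Pool.Agent.Helper62.BM Pool.Agent.Helper62.BW Pool.Agent.Helper62.BX Pool.Agent.Helper62.CX
  Pool.Agent.Helper62.VX

section tay

variable {k : Type} [Field k]

theorem constCoeff_tay (c : k) (q : k[X]) :
    PowerSeries.constantCoeff (tay c q) = q.eval c := by
  have h : (PowerSeries.constantCoeff (R := k)).comp (tay c) = Polynomial.evalRingHom c := by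
    apply Polynomial.ringHom_ext
    · intro a
      change PowerSeries.constantCoeff (tay c (Polynomial.C a)) = (Polynomial.C a).eval c
      unfold tay
      rw [Polynomial.coe_eval₂RingHom, Polynomial.eval₂_C, PowerSeries.constantCoeff_C,
        Polynomial.eval_C]
    · change PowerSeries.constantCoeff (tay c X) = (X : k[X]).eval c
      unfold tay
      rw [Polynomial.coe_eval₂RingHom, Polynomial.eval₂_X, map_add, PowerSeries.constantCoeff_X,
        PowerSeries.constantCoeff_C, zero_add, Polynomial.eval_X]
  exact RingHom.congr_fun h q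

theorem tay_sub (c : k) : tay c (X - Polynomial.C c) = PowerSeries.X := by
  unfold tay
  rw [map_sub, Polynomial.coe_eval₂RingHom, Polynomial.eval₂_X, Polynomial.eval₂_C,
    add_sub_cancel_right]

theorem tay_inj (c : k) : Function.Injective (tay c) := by
  rw [injective_iff_map_eq_zero]
  intro q hq
  by_contra hne
  obtain ⟨r, hr, hr2⟩ := Polynomial.exists_eq_pow_rootMultiplicity_mul_and_not_dvd q hne c
  rw [hr, map_mul, map_pow, tay_sub] at hq
  rcases mul_eq_zero.1 hq with h | h
  · exact pow_ne_zero _ PowerSeries.X_ne_zero h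
  · apply hr2
    rw [Polynomial.dvd_iff_isRoot, Polynomial.IsRoot.def, ← constCoeff_tay, h, map_zero]

theorem tay_C (c a : k) : tay c (Polynomial.C a) = PowerSeries.C a := by
  unfold tay
  rw [Polynomial.coe_eval₂RingHom, Polynomial.eval₂_C]

theorem tay_der (c : k) (q : k[X]) :
    PowerSeries.derivative k (tay c q) = tay c (derivative q) := by
  induction q using Polynomial.induction_on' with
  | add p q hp hq => rw [map_add, map_add, hp, hq, derivative_add, map_add]
  | monomial m a =>
    rw [derivative_monomial, ← C_mul_X_pow_eq_monomial, ← C_mul_X_pow_eq_monomial,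
      map_mul (tay c), map_mul (tay c), map_pow (tay c), map_pow (tay c), tay_C, tay_C,
      Derivation.leibniz, Derivation.leibniz_pow]
    have h1 : PowerSeries.derivative k (tay c X) = 1 := by
      unfold tay
      rw [Polynomial.coe_eval₂RingHom, Polynomial.eval₂_X, map_add]
      rw [show PowerSeries.derivative k (PowerSeries.X : PowerSeries k) = 1 from
        PowerSeries.derivative_X]
      rw [show PowerSeries.derivative k (PowerSeries.C c) = 0 from PowerSeries.derivative_C,
        add_zero]
    have h2 : PowerSeries.derivative k (PowerSeries.C a) = 0 := PowerSeries.derivative_C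
    rw [h1, h2, smul_zero, add_zero, smul_eq_mul, smul_eq_mul, nsmul_eq_mul, mul_one, map_mul,
      map_natCast]
    ring

/-- the order of a power series -/
lemma exists_order (α : PowerSeries k) (h0 : α ≠ 0) (h : PowerSeries.constantCoeff α = 0) :
    ∃ (i : ℕ) (β : PowerSeries k), 0 < i ∧ PowerSeries.constantCoeff β ≠ 0 ∧
      α = PowerSeries.X ^ i * β := by
  obtain ⟨i, β, hβ, he⟩ := WfDvdMonoid.max_power_factor h0 (PowerSeries.X_irreducible (R := k))
  rw [PowerSeries.X_dvd_iff] at hβ
  refine ⟨i, β, ?_, hβ, he⟩
  rcases Nat.eq_zero_or_pos i with h1 | h1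
  · rw [h1, pow_zero, one_mul] at he
    rw [he] at h
    exact absurd h hβ
  · exact h1

lemma X_mul_der (i : ℕ) (β : PowerSeries k) :
    PowerSeries.X * PowerSeries.derivative k (PowerSeries.X ^ i * β) =
      PowerSeries.X ^ i * ((i : PowerSeries k) * β + PowerSeries.X * PowerSeries.derivative k β) := by
  have h1 : PowerSeries.derivative k (PowerSeries.X : PowerSeries k) = 1 :=
    PowerSeries.derivative_X
  rw [Derivation.leibniz, Derivation.leibniz_pow, h1, smul_eq_mul, smul_eq_mul, smul_eq_mul,
    nsmul_eq_mul, mul_one]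
  rcases i with _ | i
  · simp
  · rw [Nat.add_sub_cancel, pow_succ]
    ring

end tay

section

variable {A : Type} [CommRing A] [IsDomain A]

/-- expansion at `t₀` over the field of fractions -/
noncomputable def psi (t₀ : A) : A[X] →+* PowerSeries (FractionRing A) :=
  (tay (algebraMap A (FractionRing A) t₀)).comp (mapRingHom (algebraMap A (FractionRing A)))

lemma psi_const (t₀ : A) (q : A[X]) :
    PowerSeries.constantCoeff (psi t₀ q) = algebraMap A (FractionRing A) (q.eval t₀) := by
  unfold psi
  rw [RingHom.comp_apply, constCoeff_tay, coe_mapRingHom, eval_map_apply]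

lemma psi_der (t₀ : A) (q : A[X]) :
    PowerSeries.derivative (FractionRing A) (psi t₀ q) = psi t₀ (derivative q) := by
  unfold psi
  rw [RingHom.comp_apply, tay_der, RingHom.comp_apply, coe_mapRingHom, derivative_map]

lemma psi_lin (t₀ : A) : psi t₀ (X - C t₀) = PowerSeries.X := by
  unfold psi
  rw [RingHom.comp_apply, coe_mapRingHom, Polynomial.map_sub, map_X, map_C, tay_sub]

lemma psi_inj (t₀ : A) : Function.Injective (psi t₀) := by
  unfold psi
  rw [RingHom.coe_comp]
  exact (tay_inj _).comp (Polynomial.map_injective _ (IsFractionRing.injective A (FractionRing A)))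

/-- the value at `s` -/
noncomputable def Es (t₀ : A) (s : PowerSeries (FractionRing A)) :
    A[X][X] →+* PowerSeries (FractionRing A) := Polynomial.eval₂RingHom (psi t₀) s

lemma Es_const (t₀ x₀ : A) (s : PowerSeries (FractionRing A))
    (hs : PowerSeries.constantCoeff s = algebraMap A (FractionRing A) x₀) (F : A[X][X]) :
    PowerSeries.constantCoeff (Es t₀ s F) =
      algebraMap A (FractionRing A) ((F.map (evalRingHom t₀)).eval x₀) := by
  have h : (PowerSeries.constantCoeff (R := FractionRing A)).comp (Es t₀ s) =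
      ((algebraMap A (FractionRing A)).comp (evalRingHom x₀)).comp
        (mapRingHom (evalRingHom t₀)) := by
    apply Polynomial.ringHom_ext
    · intro a
      simp only [Es, RingHom.comp_apply, coe_eval₂RingHom, eval₂_C, coe_mapRingHom, map_C,
        coe_evalRingHom, eval_C]
      exact psi_const t₀ a
    · simp only [Es, RingHom.comp_apply, coe_eval₂RingHom, eval₂_X, coe_mapRingHom, map_X,
        coe_evalRingHom, eval_X]
      exact hs
  exact RingHom.congr_fun h F

lemma Es_der (t₀ : A) (s : PowerSeries (FractionRing A)) (F : A[X][X]) :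
    PowerSeries.derivative (FractionRing A) (Es t₀ s F) =
      Es t₀ s (dt F) + Es t₀ s (derivative F) * PowerSeries.derivative (FractionRing A) s := by
  induction F using Polynomial.induction_on' with
  | add p q hp hq =>
    rw [map_add, map_add, hp, hq, derivative_add, map_add, Pool.Agent.Helper15.CX.dt_add, map_add]
    ring
  | monomial n c =>
    rw [Pool.Agent.Helper15.CX.dt_monomial, derivative_monomial]
    have h1 : ∀ (k : ℕ) (e : A[X]), Es t₀ s (monomial k e) = psi t₀ e * s ^ k := by
      intro k e
      simp [Es]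
    rw [h1, h1, h1, Derivation.leibniz, Derivation.leibniz_pow, psi_der, map_mul, map_natCast,
      smul_eq_mul, smul_eq_mul, smul_eq_mul, nsmul_eq_mul]
    ring

lemma coeff_Lam {R : Type} [CommRing R] (m r na nb N : ℕ) (hN : N + 1 = na + nb)
    (hna1 : 1 ≤ na) (hnb1 : 1 ≤ nb) (a b : R[X]) (ham : a.Monic) (hbm : b.Monic)
    (hna : a.natDegree = na) (hnb : b.natDegree = nb) :
    (Lam m r a b (derivative a) (derivative b)).coeff N =
      (r : R) * na + ((m - r : ℕ) : R) * nb := by
  have h1 : (derivative a * b).coeff (na - 1 + nb) = (derivative a).coeff (na - 1) * b.coeff nb :=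
    coeff_mul_add_eq_of_natDegree_le (by have := natDegree_derivative_le a; omega) hnb.le
  have h2 : (a * derivative b).coeff (na + (nb - 1)) = a.coeff na * (derivative b).coeff (nb - 1) :=
    coeff_mul_add_eq_of_natDegree_le hna.le (by have := natDegree_derivative_le b; omega)
  have h3 : b.coeff nb = 1 := by rw [← hnb]; exact hbm
  have h4 : a.coeff na = 1 := by rw [← hna]; exact ham
  have h5 : (derivative a).coeff (na - 1) = na := by
    rw [coeff_derivative, Nat.sub_add_cancel hna1, h4, one_mul]
    have : ((na - 1 : ℕ) : R) + 1 = ((na - 1 + 1 : ℕ) : R) := by push_cast; ring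
    rw [this, Nat.sub_add_cancel hna1]
  have h6 : (derivative b).coeff (nb - 1) = nb := by
    rw [coeff_derivative, Nat.sub_add_cancel hnb1, h3, one_mul]
    have : ((nb - 1 : ℕ) : R) + 1 = ((nb - 1 + 1 : ℕ) : R) := by push_cast; ring
    rw [this, Nat.sub_add_cancel hnb1]
  rw [h3, h5, mul_one] at h1
  rw [h4, h6, one_mul] at h2
  have e1 : na - 1 + nb = N := by omega
  have e2 : na + (nb - 1) = N := by omega
  rw [e1] at h1
  rw [e2] at h2
  unfold Lam
  rw [coeff_add, mul_assoc, mul_assoc, ← C_eq_natCast, ← C_eq_natCast, coeff_C_mul, coeff_C_mul,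
    h1, h2]

/-- The value of `P` at a node of arbitrary thickness. -/
theorem value_nu [CharZero A] (m r na nb : ℕ) (hr : 0 < r) (hrm : r < m) (a b : A[X][X])
    (hG : GenC na nb a b) (t₀ x₀ : A) (a₁ b₁ : A[X]) (hNd : NodeC1 a b t₀ x₀ a₁ b₁) :
    ∃ ν : ℕ, 0 < ν ∧ ∀ (P S : A[X][X]) (w : A[X]) (l : ℕ),
      (m : A[X][X]) * P * (a * b) + S * Lam m r a b (derivative a) (derivative b) =
        Polynomial.C ((X - Polynomial.C t₀) * w) * X ^ l * Lam m r a b (dt a) (dt b) →
      (m : A) * (P.map (evalRingHom t₀)).eval x₀ = ν * w.eval t₀ * x₀ ^ l := by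
  obtain ⟨ham, hbm, hna, hnb, hsepF⟩ := hG
  obtain ⟨ha0, hb0, hsep, hne⟩ := hNd
  set φ := algebraMap A (FractionRing A) with hφ
  have hinj : Function.Injective φ := IsFractionRing.injective A (FractionRing A)
  have hCK : CharZero (FractionRing A) := charZero_of_injective_algebraMap hinj
  have hm0 : (m : (FractionRing A)) ≠ 0 := by
    have : m ≠ 0 := by omega
    exact_mod_cast this
  have hr0 : (r : (FractionRing A)) ≠ 0 := by
    have : r ≠ 0 := by omega
    exact_mod_cast this
  have hmr : ((m - r : ℕ) : A[X]) = m - r := by rw [Nat.cast_sub hrm.le]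
  set ev := evalRingHom t₀ with hev
  have ha1m : a₁.Monic := by
    have h1 : ((X - C x₀) * a₁).Monic := by rw [← ha0]; exact ham.map _
    exact (monic_X_sub_C x₀).of_mul_monic_left h1
  have hb1m : b₁.Monic := by
    have h1 : ((X - C x₀) * b₁).Monic := by rw [← hb0]; exact hbm.map _
    exact (monic_X_sub_C x₀).of_mul_monic_left h1
  have hda : na = 1 + a₁.natDegree := by
    have h1 : (a.map ev).natDegree = na := by rw [ham.natDegree_map, hna]
    rw [ha0, (monic_X_sub_C x₀).natDegree_mul ha1m, natDegree_X_sub_C] at h1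
    exact h1.symm
  have hdb : nb = 1 + b₁.natDegree := by
    have h1 : (b.map ev).natDegree = nb := by rw [hbm.natDegree_map, hnb]
    rw [hb0, (monic_X_sub_C x₀).natDegree_mul hb1m, natDegree_X_sub_C] at h1
    exact h1.symm
  obtain ⟨N, hN⟩ : ∃ N, N + 1 = na + nb := ⟨na + nb - 1, by omega⟩
  set Lx := Lam m r a b (derivative a) (derivative b) with hLx
  set Lt := Lam m r a b (dt a) (dt b) with hLt
  have hLx0 : Lx.map ev = (X - C x₀) * ((m : A[X]) * (a₁ * b₁) + (X - C x₀) *
      ((r : A[X]) * derivative a₁ * b₁ + ((m - r : ℕ) : A[X]) * a₁ * derivative b₁)) := by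
    rw [hLx]
    simp only [Lam, Polynomial.map_add, Polynomial.map_mul, Polynomial.map_natCast,
      ← derivative_map, ha0, hb0]
    simp only [derivative_mul, derivative_sub, derivative_X, derivative_C, sub_zero, one_mul]
    rw [hmr]
    ring
  -- the root
  obtain ⟨s, hs0, hsr⟩ : ∃ s : PowerSeries (FractionRing A), PowerSeries.constantCoeff s = φ x₀ ∧
      Es t₀ s Lx = 0 := by
    set c : ℕ := r * na + (m - r) * nb with hc
    have hc0 : (c : (FractionRing A)) ≠ 0 := by
      have h1 : 0 < c := by
        rw [hc]
        have : 0 < r * na := Nat.mul_pos hr (by omega)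
        omega
      exact_mod_cast h1.ne'
    set f : (PowerSeries (FractionRing A))[X] := Lx.map (psi t₀) with hf
    set F : (PowerSeries (FractionRing A))[X] := C (PowerSeries.C ((c : (FractionRing A))⁻¹)) * f with hF
    have hfd : f.natDegree ≤ N := natDegree_map_le.trans
      (Pool.Agent.Helper15.CX.natDegree_Lam_le m r na nb N hN a b _ _ hna.le hnb.le
        (Pool.Agent.Helper15.CX.natDegree_der a na hna)
        (Pool.Agent.Helper15.CX.natDegree_der b nb hnb))
    have hfc : f.coeff N = (c : PowerSeries (FractionRing A)) := by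
      rw [hf, coeff_map, hLx, coeff_Lam m r na nb N hN (by omega) (by omega) a b ham hbm hna hnb]
      rw [hc]
      push_cast
      simp
    have hFm : F.Monic := by
      refine monic_of_natDegree_le_of_coeff_eq_one N ((natDegree_C_mul_le _ _).trans hfd) ?_
      rw [hF, coeff_C_mul, hfc, ← map_natCast (PowerSeries.C (R := (FractionRing A))), ← map_mul,
        inv_mul_cancel₀ hc0, map_one]
    have hev1 : ∀ q : A[X][X], (q.map (psi t₀)).eval (PowerSeries.C (φ x₀)) =
        Es t₀ (PowerSeries.C (φ x₀)) q := by
      intro q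
      rw [eval_map]
      rfl
    have hcc : ∀ q : A[X][X], PowerSeries.constantCoeff (Es t₀ (PowerSeries.C (φ x₀)) q) =
        φ ((q.map ev).eval x₀) := fun q =>
      Es_const t₀ x₀ _ (PowerSeries.constantCoeff_C _) q
    obtain ⟨s, hs1, hs2⟩ := HenselianRing.is_henselian (I := Ideal.span {(PowerSeries.X :
      PowerSeries (FractionRing A))}) F hFm (PowerSeries.C (φ x₀)) (by
        rw [Ideal.mem_span_singleton, PowerSeries.X_dvd_iff, hF, eval_mul, eval_C, hf, hev1,
          map_mul, hcc, hLx0]
        simp) (by
        refine IsUnit.map _ ?_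
        rw [PowerSeries.isUnit_iff_constantCoeff, hF, derivative_C_mul, eval_mul, eval_C, hf,
          derivative_map, hev1, map_mul, hcc, PowerSeries.constantCoeff_C, ← derivative_map, hLx0]
        refine (mul_ne_zero (inv_ne_zero hc0) ?_).isUnit
        have h2 : eval x₀ (derivative ((X - C x₀) * ((m : A[X]) * (a₁ * b₁) + (X - C x₀) *
            ((r : A[X]) * derivative a₁ * b₁ + ((m - r : ℕ) : A[X]) * a₁ * derivative b₁)))) =
            m * (a₁ * b₁).eval x₀ := by
          rw [derivative_mul, derivative_X_sub_C]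
          simp
        rw [h2, map_mul, map_natCast]
        refine mul_ne_zero hm0 fun h => hne (hinj (by rw [h, map_zero])))
    refine ⟨s, ?_, ?_⟩
    · rw [Ideal.mem_span_singleton, PowerSeries.X_dvd_iff, map_sub, PowerSeries.constantCoeff_C,
        sub_eq_zero] at hs2
      exact hs2
    · rw [IsRoot.def, hF, eval_mul, eval_C, hf, eval_map] at hs1
      rcases mul_eq_zero.1 hs1 with h | h
      · exfalso
        have h2 := congrArg (PowerSeries.constantCoeff (R := (FractionRing A))) h
        rw [PowerSeries.constantCoeff_C, map_zero] at h2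
        exact inv_ne_zero hc0 h2
      · exact h
  set α := Es t₀ s a with hα
  set β := Es t₀ s b with hβ
  have hα0 : PowerSeries.constantCoeff α = 0 := by
    rw [hα, Es_const t₀ x₀ s hs0, ← hev, ha0]
    simp
  have hβ0 : PowerSeries.constantCoeff β = 0 := by
    rw [hβ, Es_const t₀ x₀ s hs0, ← hev, hb0]
    simp
  have hEx : (r : PowerSeries (FractionRing A)) * Es t₀ s (derivative a) * β +
      ((m - r : ℕ) : PowerSeries (FractionRing A)) * α * Es t₀ s (derivative b) = 0 := by
    rw [← hsr, hLx]
    simp [Lam, hα, hβ]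
  have hrT : (r : PowerSeries (FractionRing A)) ≠ 0 := by
    rw [← map_natCast (PowerSeries.C (R := (FractionRing A)))]
    intro h
    have h2 := congrArg (PowerSeries.constantCoeff (R := (FractionRing A))) h
    rw [PowerSeries.constantCoeff_C, map_zero] at h2
    exact hr0 h2
  have hmrT : ((m - r : ℕ) : PowerSeries (FractionRing A)) ≠ 0 := by
    rw [← map_natCast (PowerSeries.C (R := (FractionRing A)))]
    intro h
    have h2 := congrArg (PowerSeries.constantCoeff (R := (FractionRing A))) h
    rw [PowerSeries.constantCoeff_C, map_zero] at h2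
    have : ((m - r : ℕ) : (FractionRing A)) ≠ 0 := by
      have : m - r ≠ 0 := by omega
      exact_mod_cast this
    exact this h2
  -- `α`, `β` are not zero
  obtain ⟨u, v, ρ, hρ, huv⟩ := Pool.Agent.Helper15.CX.cop_clear (a * b) (derivative (a * b)) (by
    rw [← derivative_map]
    exact hsepF)
  have hbez : Es t₀ s u * (α * β) + Es t₀ s v * (Es t₀ s (derivative a) * β +
      α * Es t₀ s (derivative b)) ≠ 0 := by
    have h1 := congrArg (Es t₀ s) huv
    rw [derivative_mul] at h1
    simp only [map_add, map_mul] at h1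
    rw [h1]
    have h2 : Es t₀ s (C ρ) = psi t₀ ρ := by simp [Es]
    rw [h2]
    exact fun h => hρ (psi_inj t₀ (by rw [h, map_zero]))
  have hαne : α ≠ 0 := by
    intro h
    apply hbez
    rw [h, mul_zero, zero_mul, add_zero, mul_assoc] at hEx
    rw [h, (mul_eq_zero.1 hEx).resolve_left hrT]
    ring
  have hβne : β ≠ 0 := by
    intro h
    apply hbez
    rw [h, mul_zero, zero_add, mul_assoc] at hEx
    rw [h, (mul_eq_zero.1 hEx).resolve_left hmrT]
    ring
  obtain ⟨i, α₁, hi, hα1, hαe⟩ := exists_order α hαne hα0
  obtain ⟨j, β₁, hj, hβ1, hβe⟩ := exists_order β hβne hβ0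
  refine ⟨r * i + (m - r) * j, by
    have := Nat.mul_pos hr hi
    omega, ?_⟩
  intro P S w l hrel
  have h1 := congrArg (Es t₀ s) hrel
  simp only [map_add, map_mul, map_pow, map_natCast] at h1
  rw [hsr, mul_zero, add_zero, ← hα, ← hβ] at h1
  have hEC : ∀ q : A[X], Es t₀ s (C q) = psi t₀ q := fun q => by simp [Es]
  have hEX : Es t₀ s X = s := by simp [Es]
  rw [hEC, hEC, hEX, psi_lin] at h1
  set dα := PowerSeries.derivative (FractionRing A) α with hdα
  set dβ := PowerSeries.derivative (FractionRing A) β with hdβ
  have h2 : Es t₀ s Lt = (r : PowerSeries (FractionRing A)) * dα * β + ((m - r : ℕ) : PowerSeries (FractionRing A)) * α * dβ := by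
    have e1 : dα = Es t₀ s (dt a) + Es t₀ s (derivative a) * PowerSeries.derivative (FractionRing A) s :=
      Es_der t₀ s a
    have e2 : dβ = Es t₀ s (dt b) + Es t₀ s (derivative b) * PowerSeries.derivative (FractionRing A) s :=
      Es_der t₀ s b
    have e3 : Es t₀ s Lt = (r : PowerSeries (FractionRing A)) * Es t₀ s (dt a) * β +
        ((m - r : ℕ) : PowerSeries (FractionRing A)) * α * Es t₀ s (dt b) := by
      rw [hLt]
      simp [Lam, hα, hβ]
    rw [e3, e1, e2]
    linear_combination (-(PowerSeries.derivative (FractionRing A) s)) * hEx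
  rw [h2] at h1
  have h3 : PowerSeries.X * dα = PowerSeries.X ^ i * ((i : PowerSeries (FractionRing A)) * α₁ +
      PowerSeries.X * PowerSeries.derivative (FractionRing A) α₁) := by
    rw [hdα, hαe, X_mul_der]
  have h4 : PowerSeries.X * dβ = PowerSeries.X ^ j * ((j : PowerSeries (FractionRing A)) * β₁ +
      PowerSeries.X * PowerSeries.derivative (FractionRing A) β₁) := by
    rw [hdβ, hβe, X_mul_der]
  have h5 : (PowerSeries.X ^ i * PowerSeries.X ^ j : PowerSeries (FractionRing A)) *
      ((m : PowerSeries (FractionRing A)) * Es t₀ s P * (α₁ * β₁)) =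
      (PowerSeries.X ^ i * PowerSeries.X ^ j) * (psi t₀ w * s ^ l *
        ((r : PowerSeries (FractionRing A)) * ((i : PowerSeries (FractionRing A)) * α₁ +
          PowerSeries.X * PowerSeries.derivative (FractionRing A) α₁) * β₁ +
          ((m - r : ℕ) : PowerSeries (FractionRing A)) * α₁ * ((j : PowerSeries (FractionRing A)) * β₁ +
          PowerSeries.X * PowerSeries.derivative (FractionRing A) β₁))) := by
    rw [hαe, hβe] at h1
    rw [← hdα, ← hdβ] at *
    linear_combination h1 + psi t₀ w * s ^ l * (r : PowerSeries (FractionRing A)) * PowerSeries.X ^ j * β₁ * h3 +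
      psi t₀ w * s ^ l * ((m - r : ℕ) : PowerSeries (FractionRing A)) * PowerSeries.X ^ i * α₁ * h4
  have hXX : (PowerSeries.X ^ i * PowerSeries.X ^ j : PowerSeries (FractionRing A)) ≠ 0 :=
    mul_ne_zero (pow_ne_zero _ PowerSeries.X_ne_zero) (pow_ne_zero _ PowerSeries.X_ne_zero)
  have h6 := congrArg (PowerSeries.constantCoeff (R := (FractionRing A))) (mul_left_cancel₀ hXX h5)
  simp only [map_mul, map_add, map_pow, map_natCast, PowerSeries.constantCoeff_X, zero_mul,
    add_zero, hs0, psi_const, Es_const t₀ x₀ s hs0] at h6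
  apply hinj
  rw [map_mul, map_mul, map_mul, map_natCast, map_natCast, map_pow]
  have h7 : PowerSeries.constantCoeff α₁ * PowerSeries.constantCoeff β₁ ≠ 0 := mul_ne_zero hα1 hβ1
  apply mul_right_cancel₀ h7
  push_cast
  linear_combination h6

end

end Pool.Agent.Helper15.VX
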