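import Pool.Agent.Helper15.VX.Val

/-!
# The residue at a node of arbitrary thickness (package V_RkC)
-/

set_option autoImplicit false

namespace Pool.Agent.Helper15.VX

open Polynomial
open Pool.Agent.Helper62.BM Pool.Agent.Helper62.BW Pool.Agent.Helper62.BX Pool.Agent.Helper62.CX
  Pool.Agent.Helper62.VX
open Pool.Agent.Helper15.CX (cop_node)

theorem v_RkC : V_RkC := by
  intro A _ _ _ m r na nb N hr hrm hN a b hG t₀ x₀ a₁ b₁ hNd w P S hRel
  obtain ⟨ν, hν, hval⟩ := value_nu m r na nb hr hrm a b hG t₀ x₀ a₁ b₁ hNd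
  refine ⟨ν, hν, ?_⟩
  intro i l
  obtain ⟨ham, hbm, hna, hnb, -⟩ := hG
  obtain ⟨ha0, hb0, hsep, hne⟩ := hNd
  obtain ⟨hPd, hSd, hrel⟩ := hRel l
  have hm0 : (m : A) ≠ 0 := by
    have : m ≠ 0 := by omega
    exact_mod_cast this
  have hr0 : (r : A) ≠ 0 := by
    have : r ≠ 0 := by omega
    exact_mod_cast this
  have hmr0 : ((m - r : ℕ) : A) ≠ 0 := by
    have : m - r ≠ 0 := by omega
    exact_mod_cast this
  have hmr : ((m - r : ℕ) : A[X]) = m - r := by rw [Nat.cast_sub hrm.le]
  set ev := evalRingHom t₀ with hev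
  set P₀ := (P l).map ev with hP₀
  set S₀ := (S l).map ev with hS₀
  set g : A[X] := (X - C x₀) * (a₁ * b₁) with hg
  set V : A[X] := (r : A[X]) * derivative a₁ * b₁ + ((m - r : ℕ) : A[X]) * a₁ * derivative b₁
    with hV
  -- the polynomials `a₁`, `b₁`
  have ha1m : a₁.Monic := by
    have h1 : ((X - C x₀) * a₁).Monic := by rw [← ha0]; exact ham.map _
    exact (monic_X_sub_C x₀).of_mul_monic_left h1
  have hb1m : b₁.Monic := by
    have h1 : ((X - C x₀) * b₁).Monic := by rw [← hb0]; exact hbm.map _
    exact (monic_X_sub_C x₀).of_mul_monic_left h1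
  have hda : na = 1 + a₁.natDegree := by
    have h1 : (a.map ev).natDegree = na := by rw [ham.natDegree_map, hna]
    rw [ha0, (monic_X_sub_C x₀).natDegree_mul ha1m, natDegree_X_sub_C] at h1
    exact h1.symm
  have hdb : nb = 1 + b₁.natDegree := by
    have h1 : (b.map ev).natDegree = nb := by rw [hbm.natDegree_map, hnb]
    rw [hb0, (monic_X_sub_C x₀).natDegree_mul hb1m, natDegree_X_sub_C] at h1
    exact h1.symm
  have hgm : g.Monic := (monic_X_sub_C x₀).mul (ha1m.mul hb1m)
  have hgd : g.natDegree = N := by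
    rw [hg, (monic_X_sub_C x₀).natDegree_mul (ha1m.mul hb1m), ha1m.natDegree_mul hb1m,
      natDegree_X_sub_C]
    omega
  -- the relation at `t₀`
  have hrel0 : (m : A[X]) * P₀ * g + S₀ * ((m : A[X]) * (a₁ * b₁) + (X - C x₀) * V) = 0 := by
    have h1 := congrArg (Polynomial.map ev) hrel
    have hW : ev ((X - Polynomial.C t₀) * w) = 0 := by
      rw [hev]
      simp
    simp only [Lam, Polynomial.map_add, Polynomial.map_mul, Polynomial.map_natCast,
      ← derivative_map, map_C, hW, ha0, hb0, C_0, zero_mul, ← hP₀, ← hS₀] at h1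
    simp only [derivative_mul, derivative_sub, derivative_X, derivative_C, sub_zero, one_mul] at h1
    have h2 : (X - C x₀) * ((m : A[X]) * P₀ * g +
        S₀ * ((m : A[X]) * (a₁ * b₁) + (X - C x₀) * V)) = 0 := by
      rw [← h1, hg, hV, hmr]
      ring
    exact (mul_eq_zero.1 h2).resolve_left (X_sub_C_ne_zero x₀)
  -- divisibility
  have hdvd : g ∣ S₀ := by
    have hinj : Function.Injective (algebraMap A (FractionRing A)) :=
      IsFractionRing.injective A (FractionRing A)
    rw [← Polynomial.map_dvd_map _ hinj hgm]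
    have : CharZero (FractionRing A) := charZero_of_injective_algebraMap hinj
    have hne' : ((a₁.map (algebraMap A (FractionRing A))) *
        (b₁.map (algebraMap A (FractionRing A)))).eval (algebraMap A (FractionRing A) x₀) ≠ 0 := by
      rw [← Polynomial.map_mul, eval_map_apply]
      exact fun h => hne (hinj (by rw [h, map_zero]))
    have hsep' : ((a₁.map (algebraMap A (FractionRing A))) *
        (b₁.map (algebraMap A (FractionRing A)))).Separable := by
      rwa [← Polynomial.map_mul]
    have hc := cop_node m r hr hrm _ _ _ hsep' hne'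
    have h2 : ((m : A[X]) * (a₁ * b₁) + (X - C x₀) * V).map (algebraMap A (FractionRing A)) =
        (m : (FractionRing A)[X]) * (a₁.map (algebraMap A (FractionRing A)) *
          b₁.map (algebraMap A (FractionRing A))) + (X - C (algebraMap A (FractionRing A) x₀)) *
          ((r : (FractionRing A)[X]) * derivative (a₁.map (algebraMap A (FractionRing A))) *
            b₁.map (algebraMap A (FractionRing A)) + ((m - r : ℕ) : (FractionRing A)[X]) *
            a₁.map (algebraMap A (FractionRing A)) *
              derivative (b₁.map (algebraMap A (FractionRing A)))) := by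
      rw [hV]
      simp [derivative_map]
    have h3 : g.map (algebraMap A (FractionRing A)) = (X - C (algebraMap A (FractionRing A) x₀)) *
        (a₁.map (algebraMap A (FractionRing A)) * b₁.map (algebraMap A (FractionRing A))) := by
      rw [hg]
      simp
    rw [← h2, ← h3] at hc
    refine hc.dvd_of_dvd_mul_right ?_
    rw [← Polynomial.map_mul]
    exact Polynomial.map_dvd _ ⟨-((m : A[X]) * P₀), by linear_combination hrel0⟩
  obtain ⟨q, hq⟩ := hdvd
  have hSd0 : S₀.natDegree ≤ N := (natDegree_map_le).trans hSd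
  obtain ⟨σ, hσ⟩ : ∃ σ : A, S₀ = C σ * g := by
    by_cases hq0 : q = 0
    · exact ⟨0, by rw [hq, hq0]; simp⟩
    · have h1 : q.natDegree = 0 := by
        rw [hq, hgm.natDegree_mul' hq0, hgd] at hSd0
        omega
      obtain ⟨σ, hσ⟩ := natDegree_eq_zero.1 h1
      exact ⟨σ, by rw [hq, ← hσ]; ring⟩
  have hPe : (m : A[X]) * P₀ = -(C σ * ((m : A[X]) * (a₁ * b₁) + (X - C x₀) * V)) := by
    have h1 : g * ((m : A[X]) * P₀ + C σ * ((m : A[X]) * (a₁ * b₁) + (X - C x₀) * V)) = 0 := by
      rw [hσ] at hrel0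
      rw [← hrel0]
      ring
    exact eq_neg_of_add_eq_zero_left ((mul_eq_zero.1 h1).resolve_left hgm.ne_zero)
  -- the value of `P`
  have hPv : (m : A) * P₀.eval x₀ = ν * w.eval t₀ * x₀ ^ (l : ℕ) := hval (P l) (S l) w l hrel
  have hσv : (m : A) * -(σ * (a₁ * b₁).eval x₀) = ν * w.eval t₀ * x₀ ^ (l : ℕ) := by
    have h1 := congrArg (Polynomial.eval x₀) hPe
    simp only [eval_mul, eval_neg, eval_add, eval_sub, eval_X, eval_C, sub_self, zero_mul, add_zero,
      eval_natCast] at h1
    rw [← hPv, h1, eval_mul]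
    ring
  -- the coefficients
  have hMc : (Mc P S i l).eval t₀ = -(P₀ + derivative S₀).coeff i := by
    have h1 : (P l + derivative (S l)).map ev = P₀ + derivative S₀ := by
      rw [Polynomial.map_add, ← derivative_map]
    rw [← h1, coeff_map]
    unfold Mc
    rw [Matrix.of_apply, eval_neg]
    rfl
  have hsum : (m : A[X]) * (P₀ + derivative S₀) = C σ * ((X - C x₀) *
      (((m - r : ℕ) : A[X]) * derivative a₁ * b₁ + (r : A[X]) * a₁ * derivative b₁)) := by
    rw [mul_add, hPe, hσ, hg, hV]
    simp only [derivative_mul, derivative_sub, derivative_X, derivative_C, zero_mul, zero_add,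
      sub_zero, one_mul]
    rw [hmr]
    ring
  have hco := congrArg (fun f : A[X] => f.coeff i) hsum
  simp only [coeff_C_mul] at hco
  rw [← C_eq_natCast, coeff_C_mul] at hco
  rw [hMc]
  calc (m : A) ^ 2 * (a₁ * b₁).eval x₀ * -(P₀ + derivative S₀).coeff i
      = -(m * (a₁ * b₁).eval x₀ * (m * (P₀ + derivative S₀).coeff i)) := by ring
    _ = m * -(σ * (a₁ * b₁).eval x₀) * ((X - C x₀) *
      (((m - r : ℕ) : A[X]) * derivative a₁ * b₁ + (r : A[X]) * a₁ * derivative b₁)).coeff i := by
        rw [hco]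
        ring
    _ = _ := by
        rw [hσv]
        ring

end Pool.Agent.Helper15.VX
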